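import Mathlib

/-!
# Compatibility lemma for uncountable families of finite partial functions
-/

namespace Pool.Agent.TH597.TE

open Set

/-- An uncountable family of finite partial functions to a countable set has an uncountable
pairwise compatible subfamily (bounded size version). -/
theorem compat_aux {ι T C : Type*} [Countable C] (c : ι → T → C) (k : ℕ) :
    ∀ (D : ι → Finset T) (X : Set ι), ¬ X.Countable → (∀ i ∈ X, (D i).card ≤ k) →
      ∃ X' ⊆ X, ¬ X'.Countable ∧
        ∀ i ∈ X', ∀ j ∈ X', i ≠ j → ∀ l ∈ D i, l ∈ D j → c i l = c j l := by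
  classical
  induction k with
  | zero =>
    intro D X hX hD
    refine ⟨X, subset_rfl, hX, fun i hi j _ _ l hl _ => ?_⟩
    have := Finset.card_eq_zero.1 (Nat.le_zero.1 (hD i hi))
    rw [this] at hl
    simp at hl
  | succ k ih =>
    intro D X hX hD
    obtain ⟨M, hM⟩ := zorn_subset {S : Set ι | S ⊆ X ∧ S.PairwiseDisjoint D} (by
      intro c hc hchain
      refine ⟨⋃₀ c, ⟨sUnion_subset fun s hs => (hc hs).1, ?_⟩, fun s hs => subset_sUnion_of_mem hs⟩
      intro i hi j hj hij
      obtain ⟨s, hs, his⟩ := hi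
      obtain ⟨t, ht, hjt⟩ := hj
      rcases hchain.total hs ht with h | h
      · exact (hc ht).2 (h his) hjt hij
      · exact (hc hs).2 his (h hjt) hij)
    have hMp := hM.prop
    by_cases hMc : M.Countable
    · have hXM : ¬ (X \ M).Countable := fun h => hX ((h.union hMc).mono (by
        intro i hi
        by_cases h : i ∈ M
        · exact Or.inr h
        · exact Or.inl ⟨hi, h⟩))
      have hB : (⋃ j ∈ M, (D j : Set T)).Countable :=
        hMc.biUnion fun j _ => (D j).countable_toSet
      have hkey : ∀ i ∈ X \ M, ∃ l ∈ ⋃ j ∈ M, (D j : Set T), l ∈ D i := by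
        intro i hi
        by_contra hno
        push Not at hno
        have h1 : insert i M ∈ {S : Set ι | S ⊆ X ∧ S.PairwiseDisjoint D} := by
          refine ⟨insert_subset hi.1 hMp.1, ?_⟩
          refine hMp.2.insert fun j hj hij => ?_
          rw [Finset.disjoint_left]
          intro l hl hlj
          exact hno l (mem_biUnion hj hlj) hl
        have h2 : i ∈ M := hM.le_of_ge h1 (subset_insert i M) (mem_insert i M)
        exact hi.2 h2
      obtain ⟨l, hl, c0, hc0⟩ : ∃ l ∈ ⋃ j ∈ M, (D j : Set T), ∃ c0 : C,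
          ¬ {i | i ∈ X ∧ l ∈ D i ∧ c i l = c0}.Countable := by
        by_contra hno
        push Not at hno
        apply hXM
        refine (hB.biUnion fun l hl => countable_iUnion (fun c0 => hno l hl c0)).mono ?_
        intro i hi
        obtain ⟨l, hl, hli⟩ := hkey i hi
        exact mem_biUnion hl (mem_iUnion.2 ⟨c i l, hi.1, hli, rfl⟩)
      obtain ⟨X', hX', hX'c, hcomp⟩ := ih (fun i => (D i).erase l)
        {i | i ∈ X ∧ l ∈ D i ∧ c i l = c0} hc0 (by
          intro i hi
          rw [Finset.card_erase_of_mem hi.2.1]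
          have := hD i hi.1
          omega)
      refine ⟨X', hX'.trans fun i hi => hi.1, hX'c, fun i hi j hj hij l' hli hlj => ?_⟩
      by_cases h : l' = l
      · rw [h, (hX' hi).2.2, (hX' hj).2.2]
      · exact hcomp i hi j hj hij l' (Finset.mem_erase.2 ⟨h, hli⟩) (Finset.mem_erase.2 ⟨h, hlj⟩)
    · refine ⟨M, hMp.1, hMc, fun i hi j hj hij l hli hlj => ?_⟩
      exact absurd hlj (Finset.disjoint_left.1 (hMp.2 hi hj hij) hli)

/-- An uncountable family of finite partial functions to a countable set has an uncountable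
pairwise compatible subfamily. -/
theorem compat {ι T C : Type*} [Countable C] (c : ι → T → C) (D : ι → Finset T) (X : Set ι)
    (hX : ¬ X.Countable) : ∃ X' ⊆ X, ¬ X'.Countable ∧
        ∀ i ∈ X', ∀ j ∈ X', i ≠ j → ∀ l ∈ D i, l ∈ D j → c i l = c j l := by
  obtain ⟨k, hk⟩ : ∃ k : ℕ, ¬ {i | i ∈ X ∧ (D i).card ≤ k}.Countable := by
    by_contra hno
    push Not at hno
    apply hX
    refine (countable_iUnion hno).mono fun i hi => ?_
    simp only [mem_iUnion]
    exact ⟨(D i).card, hi, le_rfl⟩
  obtain ⟨X', h1, h2, h3⟩ := compat_aux c k D _ hk fun i hi => hi.2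
  exact ⟨X', h1.trans fun i hi => hi.1, h2, h3⟩

end Pool.Agent.TH597.TE
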