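import Mathlib

/-!
# Continuous extenders between spaces `C_p`
-/

namespace Pool.Agent.TH597.TE

open Topology

/-- The topology of pointwise convergence on the set `C(X, ℝ)` of continuous real functions
on `X`: the topology induced from the product topology of `X → ℝ`. -/
abbrev pointwiseTop (X : Type*) [TopologicalSpace X] : TopologicalSpace C(X, ℝ) :=
  TopologicalSpace.induced (fun f => (f : X → ℝ)) Pi.topologicalSpace

/-- `e : X → Y` admits a continuous extender `C_p(X) → C_p(Y)`: a map `φ` continuous for the
topologies of pointwise convergence with `φ(f) ∘ e = f` for all `f`. When `e` is a topological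
embedding, this says that the subspace `e(X)` of `Y` is t-embedded in `Y`. -/
def HasContinuousExtender {X Y : Type*} [TopologicalSpace X] [TopologicalSpace Y]
    (e : X → Y) : Prop :=
  ∃ φ : C(X, ℝ) → C(Y, ℝ), Continuous[pointwiseTop X, pointwiseTop Y] φ ∧
    ∀ (f : C(X, ℝ)) (x : X), φ f (e x) = f x

end Pool.Agent.TH597.TE
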