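import Mathlib
import Pool.Agent.TH597.TE.Defs

/-!
# Certificates
-/

namespace Pool.Agent.TH597.TE

open Set Filter Topology

variable {X Y : Type*} [TopologicalSpace X] [TopologicalSpace Y]

/-- `S` certifies the value of `φ` near `f` at the point `y`. -/
def Cert (φ : C(X, ℝ) → C(Y, ℝ)) (f : C(X, ℝ)) (ε : ℝ) {n : ℕ} (S : Fin n → X) (y : Y) : Prop :=
  ∀ g : C(X, ℝ), (∀ a, |g (S a) - f (S a)| < ε) → |φ g y - φ f y| ≤ 1 / 8

lemma isClosed_cert (φ : C(X, ℝ) → C(Y, ℝ)) (f : C(X, ℝ)) (ε : ℝ) (n : ℕ) :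
    IsClosed {p : Y × (Fin n → X) | Cert φ f ε p.2 p.1} := by
  have h1 : {p : Y × (Fin n → X) | Cert φ f ε p.2 p.1} = ⋂ g : C(X, ℝ),
      ({p : Y × (Fin n → X) | ∀ a, |g (p.2 a) - f (p.2 a)| < ε}ᶜ ∪
        {p : Y × (Fin n → X) | |φ g p.1 - φ f p.1| ≤ 1 / 8}) := by
    ext p
    simp only [Cert, mem_ofPred_eq, mem_iInter, mem_union, mem_compl_iff]
    refine forall_congr' fun g => ?_
    tauto
  rw [h1]
  refine isClosed_iInter fun g => IsClosed.union ?_ ?_
  · rw [isClosed_compl_iff]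
    have h2 : {p : Y × (Fin n → X) | ∀ a, |g (p.2 a) - f (p.2 a)| < ε} =
        ⋂ a, {p : Y × (Fin n → X) | |g (p.2 a) - f (p.2 a)| < ε} := by
      ext p
      simp
    rw [h2]
    refine isOpen_iInter_of_finite fun a => ?_
    refine isOpen_lt ?_ continuous_const
    fun_prop
  · refine isClosed_le ?_ continuous_const
    fun_prop

lemma isClosed_exists_cert [CompactSpace X] (φ : C(X, ℝ) → C(Y, ℝ)) (f : C(X, ℝ)) (ε : ℝ)
    (n : ℕ) : IsClosed {y : Y | ∃ S : Fin n → X, Cert φ f ε S y} := by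
  have h1 : {y : Y | ∃ S : Fin n → X, Cert φ f ε S y} =
      Prod.fst '' {p : Y × (Fin n → X) | Cert φ f ε p.2 p.1} := by
    ext y
    constructor
    · rintro ⟨S, hS⟩
      exact ⟨(y, S), hS, rfl⟩
    · rintro ⟨p, hp, rfl⟩
      exact ⟨p.2, hp⟩
  rw [h1]
  exact isClosedMap_fst_of_compactSpace _ (isClosed_cert φ f ε n)

lemma exists_cert (φ : C(X, ℝ) → C(Y, ℝ))
    (hφ : Continuous[pointwiseTop X, pointwiseTop Y] φ) (f : C(X, ℝ)) (y : Y) :
    ∃ (n k : ℕ) (S : Fin n → X), Cert φ f (1 / ((k : ℝ) + 1)) S y := by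
  classical
  -- the evaluation at `y` is continuous
  have h1 : Continuous[pointwiseTop X, inferInstance] (fun g : C(X, ℝ) => φ g y) := by
    have h2 : Continuous[pointwiseTop Y, inferInstance] (fun h : C(Y, ℝ) => h y) := by
      let := pointwiseTop Y
      have h3 : Continuous (fun h : C(Y, ℝ) => (h : Y → ℝ)) := continuous_induced_dom
      exact (continuous_apply y).comp h3
    let := pointwiseTop X
    let := pointwiseTop Y
    exact h2.comp hφ
  have h2 : IsOpen[pointwiseTop X] {g : C(X, ℝ) | |φ g y - φ f y| < 1 / 8} := by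
    let := pointwiseTop X
    refine isOpen_lt ?_ continuous_const
    exact (h1.sub continuous_const).abs
  rw [pointwiseTop, isOpen_induced_iff] at h2
  obtain ⟨t, ht, htf⟩ := h2
  have hft : (f : X → ℝ) ∈ t := by
    have h3 : f ∈ (fun f : C(X, ℝ) => (f : X → ℝ)) ⁻¹' t := by
      rw [htf]
      simp
    exact h3
  obtain ⟨I, u, hu, hI⟩ := isOpen_pi_iff.1 ht f hft
  -- uniform epsilon
  have hev : ∀ᶠ ε in 𝓝[>] (0 : ℝ), ∀ a ∈ I, ∀ z : ℝ, |z - f a| < ε → z ∈ u a := by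
    rw [Filter.eventually_all_finset]
    intro a ha
    obtain ⟨δ, hδ, hδu⟩ := Metric.isOpen_iff.1 (hu a ha).1 (f a) (hu a ha).2
    filter_upwards [Ioo_mem_nhdsGT hδ] with ε hε z hz
    apply hδu
    rw [Metric.mem_ball, Real.dist_eq]
    exact hz.trans hε.2
  obtain ⟨ε, h3, h4⟩ := (hev.and self_mem_nhdsWithin).exists
  have h4' : (0 : ℝ) < ε := h4
  obtain ⟨k, hk⟩ := exists_nat_one_div_lt h4'
  refine ⟨I.card, k, fun a => (I.equivFin.symm a : X), fun g hg => ?_⟩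
  have h5 : (g : X → ℝ) ∈ (I : Set X).pi u := by
    intro a ha
    have ha' : a ∈ I := ha
    apply h3 a ha'
    have h6 := hg (I.equivFin ⟨a, ha'⟩)
    simp only [Equiv.symm_apply_apply] at h6
    exact h6.trans hk
  have h6 : g ∈ (fun f : C(X, ℝ) => (f : X → ℝ)) ⁻¹' t := hI h5
  rw [htf] at h6
  exact le_of_lt h6

end Pool.Agent.TH597.TE
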