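import Mathlib
import Pool.Agent.TH597.TE.Cert

/-!
# Local data for one clopen set
-/

namespace Pool.Agent.TH597.TE

open Set Filter Topology TopologicalSpace unitInterval

variable {X A : Type*} [TopologicalSpace X]

/-- The real valued characteristic function. -/
def fc (c : C(X, Bool)) : C(X, ℝ) :=
  ⟨fun x => if c x then 1 else 0,
    (continuous_of_discreteTopology (f := fun b : Bool => if b then (1 : ℝ) else 0)).comp
      c.continuous⟩

lemma fc_apply (c : C(X, Bool)) (x : X) : fc c x = if c x then 1 else 0 := rfl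

/-- If `X` has uncountably many clopen sets, then some clopen set is not determined by countably
many coordinates. -/
lemma exists_unsaturated [CompactSpace X] (e : X → A → I) (he : Continuous e)
    (hX : ¬ Countable C(X, Bool)) (M : Set A) (hM : M.Countable) :
    ∃ (c : C(X, Bool)) (x x' : X), (∀ l ∈ M, e x l = e x' l) ∧ c x = false ∧ c x' = true := by
  classical
  by_contra hno
  push Not at hno
  apply hX
  have : Countable M := hM.to_subtype
  set π : X → (M → I) := fun x l => e x l with hπ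
  have hπc : Continuous π := continuous_pi fun l => (continuous_apply (l : A)).comp he
  set πr : X → range π := rangeFactorization π with hπr
  have hπrc : Continuous πr := hπc.subtype_mk _
  have hclosed : IsClosedMap πr := hπrc.isClosedMap
  have hsurj : Function.Surjective πr := rangeFactorization_surjective
  have hsat : ∀ (c : C(X, Bool)) (x x' : X), πr x = πr x' → c x = false → c x' = false := by
    intro c x x' h hx
    have h1 : π x = π x' := congrArg Subtype.val h
    have h2 := hno c x x' (fun l hl => congrFun h1 ⟨l, hl⟩) hx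
    simpa using h2
  have hsat' : ∀ (c : C(X, Bool)) (x x' : X), πr x = πr x' → c x = true → c x' = true := by
    intro c x x' h hx
    by_contra h2
    rw [Bool.not_eq_true] at h2
    have := hsat c x' x h.symm h2
    rw [this] at hx
    exact Bool.false_ne_true hx
  have hK : ∀ c : C(X, Bool), ∃ t : Finset (countableBasis (range π)),
      πr '' (c ⁻¹' {true}) = (SetLike.coe t).sUnion := by
    intro c
    refine eq_sUnion_finset_of_isTopologicalBasis_of_isCompact_open _
      (isBasis_countableBasis _) _ ?_ ?_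
    · exact ((isClosed_discrete {true}).preimage c.continuous).isCompact.image hπrc
    · have h1 : πr '' (c ⁻¹' {true}) = (πr '' (c ⁻¹' {false}))ᶜ := by
        ext z
        obtain ⟨x, rfl⟩ := hsurj z
        simp only [mem_image, mem_preimage, mem_singleton_iff, mem_compl_iff]
        constructor
        · rintro ⟨x1, h1, h2⟩ ⟨x2, h3, h4⟩
          have := hsat' c x1 x2 (h2.trans h4.symm) h1
          rw [this] at h3
          exact Bool.false_ne_true h3.symm
        · intro h
          by_contra h2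
          apply h
          refine ⟨x, ?_, rfl⟩
          by_contra h3
          rw [Bool.not_eq_false] at h3
          exact h2 ⟨x, h3, rfl⟩
      rw [h1, isOpen_compl_iff]
      exact hclosed _ ((isClosed_discrete {false}).preimage c.continuous)
  choose t ht using hK
  have hinj : Function.Injective t := by
    intro c c' h
    have h1 : πr '' (c ⁻¹' {true}) = πr '' (c' ⁻¹' {true}) := by rw [ht, ht, h]
    ext x
    have h2 : c x = true ↔ c' x = true := by
      constructor
      · intro hx
        have h3 : πr x ∈ πr '' (c ⁻¹' {true}) := ⟨x, hx, rfl⟩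
        rw [h1] at h3
        obtain ⟨x1, h4, h5⟩ := h3
        exact hsat' c' x1 x h5 h4
      · intro hx
        have h3 : πr x ∈ πr '' (c' ⁻¹' {true}) := ⟨x, hx, rfl⟩
        rw [← h1] at h3
        obtain ⟨x1, h4, h5⟩ := h3
        exact hsat' c x1 x h5 h4
    exact Bool.eq_iff_iff.2 h2
  exact hinj.countable

/-- Finite local data attached to a clopen set. -/
structure Dat (φ : C(X, ℝ) → C(A → I, ℝ)) where
  /-- the clopen set -/
  c : C(X, Bool)
  /-- the moving coordinates -/
  H : Finset A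
  /-- the fixed coordinates -/
  R : Finset A
  /-- the values on the fixed coordinates -/
  r : A → ℕ
  /-- start values -/
  a : A → I
  /-- end values -/
  b : A → I
  /-- tolerance -/
  η : ℝ
  /-- size of labels at the start -/
  n : ℕ
  /-- precision at the start -/
  k : ℕ
  /-- size of labels at the end -/
  m : ℕ
  /-- precision at the end -/
  k' : ℕ
  hη : 0 < η
  hHR : ∀ l ∈ H, l ∉ R
  h0 : ∀ y : A → I, (∀ l ∈ R, y l = denseSeq I (r l)) → (∀ l ∈ H, |(y l : ℝ) - a l| ≤ η) →
    φ (fc c) y < 1 / 4 ∧ ∃ S : Fin n → X, Cert φ (fc c) (1 / ((k : ℝ) + 1)) S y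
  h1 : ∀ y : A → I, (∀ l ∈ R, y l = denseSeq I (r l)) → (∀ l ∈ H, |(y l : ℝ) - b l| ≤ η) →
    3 / 4 < φ (fc c) y ∧ ∃ S : Fin m → X, Cert φ (fc c) (1 / ((k' : ℝ) + 1)) S y

lemma Dat.nonempty {φ : C(X, ℝ) → C(A → I, ℝ)} (d : Dat φ) : d.H.Nonempty := by
  rw [Finset.nonempty_iff_ne_empty]
  intro h
  have h2 := (d.h0 (fun l => denseSeq I (d.r l)) (fun l _ => rfl) (by simp [h])).1
  have h3 := (d.h1 (fun l => denseSeq I (d.r l)) (fun l _ => rfl) (by simp [h])).1
  linarith

lemma exists_dat [CompactSpace X] (e : X → A → I) (he : Continuous e)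
    (hX : ¬ Countable C(X, Bool)) (φ : C(X, ℝ) → C(A → I, ℝ))
    (hφ : Continuous[pointwiseTop X, pointwiseTop (A → I)] φ)
    (hext : ∀ f x, φ f (e x) = f x) (M : Set A) (hM : M.Countable) :
    ∃ d : Dat φ, ∀ l ∈ d.H, l ∉ M := by
  classical
  obtain ⟨c, x, x', hxx, hcx, hcx'⟩ := exists_unsaturated e he hX M hM
  set f := fc c with hf
  have hf0 : φ f (e x) = 0 := by rw [hext, hf, fc_apply, hcx]; simp
  have hf1 : φ f (e x') = 1 := by rw [hext, hf, fc_apply, hcx']; simp
  have hO : IsOpen {y : A → I | φ f y < 1 / 4} := isOpen_lt (φ f).continuous continuous_const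
  have hO' : IsOpen {y : A → I | 3 / 4 < φ f y} := isOpen_lt continuous_const (φ f).continuous
  obtain ⟨G, u, hu, hGu⟩ := isOpen_pi_iff.1 hO (e x) (by
    rw [mem_ofPred_eq, hf0]; norm_num)
  obtain ⟨G', u', hu', hGu'⟩ := isOpen_pi_iff.1 hO' (e x') (by
    rw [mem_ofPred_eq, hf1]; norm_num)
  set Y : ℕ × ℕ → Set (A → I) := fun p =>
    {y | ∃ S : Fin p.1 → X, Cert φ f (1 / ((p.2 : ℝ) + 1)) S y} with hY
  have hYc : ∀ p, IsClosed (Y p) := fun p => isClosed_exists_cert φ f _ p.1
  have hYu : ⋃ p, Y p = univ := by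
    rw [eq_univ_iff_forall]
    intro y
    obtain ⟨n, k, S, hS⟩ := exists_cert φ hφ f y
    exact mem_iUnion.2 ⟨(n, k), S, hS⟩
  have hdense := dense_iUnion_interior_of_closed hYc hYu
  -- first box
  set O1 : Set (A → I) := (G : Set A).pi u ∩ ((G'.filter (· ∈ M) : Finset A) : Set A).pi u'
    with hO1
  have hO1o : IsOpen O1 := by
    refine (isOpen_set_pi G.finite_toSet fun l hl => (hu l hl).1).inter
      (isOpen_set_pi (Finset.finite_toSet _) fun l hl => ?_)
    exact (hu' l (Finset.mem_filter.1 hl).1).1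
  obtain ⟨y1, hy1, hy1'⟩ := hdense.inter_open_nonempty O1 hO1o ⟨e x, by
    refine ⟨fun l hl => (hu l hl).2, fun l hl => ?_⟩
    have hl' := Finset.mem_filter.1 hl
    rw [hxx l hl'.2]
    exact (hu' l hl'.1).2⟩
  obtain ⟨p1, hp1⟩ := mem_iUnion.1 hy1'
  obtain ⟨G1, u1, hu1, hGu1⟩ := isOpen_pi_iff.1 (hO1o.inter (isOpen_interior (s := Y p1))) y1
    ⟨hy1, hp1⟩
  -- second box
  set O2 : Set (A → I) := (G' : Set A).pi u' ∩ ((G1.filter (· ∈ M) : Finset A) : Set A).pi u1
    with hO2
  have hO2o : IsOpen O2 := by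
    refine (isOpen_set_pi G'.finite_toSet fun l hl => (hu' l hl).1).inter
      (isOpen_set_pi (Finset.finite_toSet _) fun l hl => ?_)
    exact (hu1 l (Finset.mem_filter.1 hl).1).1
  obtain ⟨y3, hy3, hy3'⟩ := hdense.inter_open_nonempty O2 hO2o
    ⟨fun l => if l ∈ M then y1 l else e x' l, by
      constructor
      · intro l hl
        by_cases h : l ∈ M
        · simp only [h, if_true]
          exact hy1.2 l (Finset.mem_coe.2 (Finset.mem_filter.2 ⟨hl, h⟩))
        · simp only [h, if_false]
          exact (hu' l hl).2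
      · intro l hl
        have hl' := Finset.mem_filter.1 hl
        simp only [hl'.2, if_true]
        exact (hu1 l hl'.1).2⟩
  obtain ⟨p2, hp2⟩ := mem_iUnion.1 hy3'
  obtain ⟨G2, u2, hu2, hGu2⟩ := isOpen_pi_iff.1 (hO2o.inter (isOpen_interior (s := Y p2))) y3
    ⟨hy3, hp2⟩
  -- root values
  have hr : ∀ l, ∃ n : ℕ, l ∈ M → (l ∈ G1 → denseSeq I n ∈ u1 l) ∧
      (l ∈ G2 → denseSeq I n ∈ u2 l) := by
    intro l
    by_cases hl : l ∈ M
    · set W : Set I := (if l ∈ G1 then u1 l else univ) ∩ (if l ∈ G2 then u2 l else univ) with hW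
      have hWo : IsOpen W := by
        refine IsOpen.inter ?_ ?_
        · split_ifs with h
          · exact (hu1 l h).1
          · exact isOpen_univ
        · split_ifs with h
          · exact (hu2 l h).1
          · exact isOpen_univ
      have hWn : W.Nonempty := by
        refine ⟨y3 l, ?_, ?_⟩
        · split_ifs with h
          · exact hy3.2 l (Finset.mem_coe.2 (Finset.mem_filter.2 ⟨h, hl⟩))
          · exact mem_univ _
        · split_ifs with h
          · exact (hu2 l h).2
          · exact mem_univ _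
      obtain ⟨n, hn⟩ := (denseRange_denseSeq I).exists_mem_open hWo hWn
      refine ⟨n, fun _ => ⟨fun h => ?_, fun h => ?_⟩⟩
      · have := hn.1
        rwa [if_pos h] at this
      · have := hn.2
        rwa [if_pos h] at this
    · exact ⟨0, fun h => absurd h hl⟩
  choose r hr using hr
  set H : Finset A := (G1 ∪ G2).filter (· ∉ M) with hH
  set R : Finset A := (G1 ∪ G2).filter (· ∈ M) with hR
  -- tolerance
  obtain ⟨η, hη, hη1, hη2⟩ : ∃ η : ℝ, 0 < η ∧
      (∀ l ∈ G1, ∀ z : I, |(z : ℝ) - y1 l| ≤ η → z ∈ u1 l) ∧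
      (∀ l ∈ G2, ∀ z : I, |(z : ℝ) - y3 l| ≤ η → z ∈ u2 l) := by
    have hev1 : ∀ᶠ η in 𝓝[>] (0 : ℝ), ∀ l ∈ G1, ∀ z : I, |(z : ℝ) - y1 l| ≤ η → z ∈ u1 l := by
      rw [Filter.eventually_all_finset]
      intro l hl
      obtain ⟨δ, hδ, hδu⟩ := Metric.isOpen_iff.1 (hu1 l hl).1 (y1 l) (hu1 l hl).2
      filter_upwards [Ioo_mem_nhdsGT hδ] with ε hε z hz
      apply hδu
      rw [Metric.mem_ball, Subtype.dist_eq, Real.dist_eq]
      exact hz.trans_lt hε.2
    have hev2 : ∀ᶠ η in 𝓝[>] (0 : ℝ), ∀ l ∈ G2, ∀ z : I, |(z : ℝ) - y3 l| ≤ η → z ∈ u2 l := by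
      rw [Filter.eventually_all_finset]
      intro l hl
      obtain ⟨δ, hδ, hδu⟩ := Metric.isOpen_iff.1 (hu2 l hl).1 (y3 l) (hu2 l hl).2
      filter_upwards [Ioo_mem_nhdsGT hδ] with ε hε z hz
      apply hδu
      rw [Metric.mem_ball, Subtype.dist_eq, Real.dist_eq]
      exact hz.trans_lt hε.2
    obtain ⟨η, h1, h2, h3⟩ := (hev1.and (hev2.and self_mem_nhdsWithin)).exists
    exact ⟨η, h3, h1, h2⟩
  refine ⟨⟨c, H, R, r, y1, y3, η, p1.1, p1.2, p2.1, p2.2, hη, ?_, ?_, ?_⟩, ?_⟩
  · intro l hl hl'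
    exact (Finset.mem_filter.1 hl).2 (Finset.mem_filter.1 hl').2
  · intro y hyR hyH
    have hy : y ∈ O1 ∩ interior (Y p1) := by
      apply hGu1
      intro l hl
      have hl' : l ∈ G1 := hl
      by_cases h : l ∈ M
      · rw [hyR l (Finset.mem_filter.2 ⟨Finset.mem_union_left _ hl', h⟩)]
        exact (hr l h).1 hl'
      · exact hη1 l hl' _ (hyH l (Finset.mem_filter.2 ⟨Finset.mem_union_left _ hl', h⟩))
    have h5 : y ∈ Y p1 := interior_subset hy.2
    exact ⟨hGu hy.1.1, h5⟩
  · intro y hyR hyH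
    have hy : y ∈ O2 ∩ interior (Y p2) := by
      apply hGu2
      intro l hl
      have hl' : l ∈ G2 := hl
      by_cases h : l ∈ M
      · rw [hyR l (Finset.mem_filter.2 ⟨Finset.mem_union_right _ hl', h⟩)]
        exact (hr l h).2 hl'
      · exact hη2 l hl' _ (hyH l (Finset.mem_filter.2 ⟨Finset.mem_union_right _ hl', h⟩))
    have h5 : y ∈ Y p2 := interior_subset hy.2
    exact ⟨hGu' hy.1.1, h5⟩
  · intro l hl
    exact (Finset.mem_filter.1 hl).2

end Pool.Agent.TH597.TE
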