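import Mathlib
import Pool.Agent.Helper31.GZ.Brouwer

/-!
# Poincaré–Miranda theorem on the unit cube
-/

namespace Pool.Agent.TH597.TE

open Set

/-- Poincaré–Miranda on the unit cube of `J → ℝ`. -/
theorem miranda {J : Type*} [Fintype J] (z : (J → ℝ) → (J → ℝ)) (hz : Continuous z)
    (h0 : ∀ s : J → ℝ, (∀ i, s i ∈ Icc (0 : ℝ) 1) → ∀ i, s i = 0 → z s i < 0)
    (h1 : ∀ s : J → ℝ, (∀ i, s i ∈ Icc (0 : ℝ) 1) → ∀ i, s i = 1 → 0 < z s i) :
    ∃ s : J → ℝ, (∀ i, s i ∈ Icc (0 : ℝ) 1) ∧ z s = 0 := by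
  classical
  -- clamp
  set c : (J → ℝ) → (J → ℝ) := fun s i => max 0 (min 1 (s i)) with hc
  have hcc : Continuous c := by
    rw [hc]; fun_prop
  have hcmem : ∀ s i, c s i ∈ Icc (0 : ℝ) 1 := by
    intro s i
    simp only [hc]
    exact ⟨le_max_left _ _, max_le zero_le_one (min_le_left _ _)⟩
  set f : (J → ℝ) → (J → ℝ) := fun s => c s - z (c s) with hf
  have hfc : Continuous f := hcc.sub (hz.comp hcc)
  -- boundedness
  have hcomp : IsCompact (Icc (0 : J → ℝ) 1) := isCompact_Icc
  obtain ⟨R, hR⟩ : ∃ R : ℝ, ∀ s ∈ Icc (0 : J → ℝ) 1, ‖s - z s‖ ≤ R := by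
    have := (hcomp.image (continuous_id.sub hz)).isBounded.exists_norm_le
    obtain ⟨R, hR⟩ := this
    exact ⟨R, fun s hs => hR _ ⟨s, hs, rfl⟩⟩
  obtain ⟨s, hs⟩ := Pool.Agent.Helper31.GZ.Brouwer.brouwer f hfc R (by
    intro x
    exact hR (c x) ⟨fun i => (hcmem x i).1, fun i => (hcmem x i).2⟩)
  have hsi : ∀ i, c s i - z (c s) i = s i := fun i => congrFun hs i
  have hmem : ∀ i, s i ∈ Icc (0 : ℝ) 1 := by
    intro i
    constructor
    · by_contra hlt
      rw [not_le] at hlt
      have hci : c s i = 0 := by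
        simp only [hc]
        exact max_eq_left ((min_le_right _ _).trans hlt.le)
      have := h0 (c s) (hcmem s) i hci
      have h2 := hsi i
      rw [hci] at h2
      linarith
    · by_contra hlt
      rw [not_le] at hlt
      have hci : c s i = 1 := by
        simp only [hc]
        rw [min_eq_left hlt.le]
        exact max_eq_right zero_le_one
      have := h1 (c s) (hcmem s) i hci
      have h2 := hsi i
      rw [hci] at h2
      linarith
  have hcs : c s = s := by
    funext i
    simp only [hc]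
    rw [min_eq_right (hmem i).2, max_eq_right (hmem i).1]
  refine ⟨s, hmem, ?_⟩
  funext i
  have := hsi i
  rw [hcs] at this
  simp only [Pi.zero_apply]
  linarith

end Pool.Agent.TH597.TE
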