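import Mathlib
import Pool.Agent.TH597.TE.Miranda

/-!
# The finite level obstruction
-/

namespace Pool.Agent.TH597.TE

open Set Metric Polynomial Filter Topology

/-- Tensor linearization of `∏ ∏ (p a - q b)^2`. -/
lemma lin (n m : ℕ) (p : Fin n → ℝ) (q : Fin m → ℝ) :
    ∑ k : Fin n → Fin (2 * m + 1), (∏ a, p a ^ (k a : ℕ)) *
      (∏ a, (∏ b, (X - C (q b)) ^ 2 : ℝ[X]).coeff (k a : ℕ)) = ∏ a, ∏ b, (p a - q b) ^ 2 := by
  have hdeg : (∏ b, (X - C (q b)) ^ 2 : ℝ[X]).natDegree < 2 * m + 1 := by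
    have h1 : (∏ b, (X - C (q b)) ^ 2 : ℝ[X]).natDegree ≤ ∑ b : Fin m, ((X - C (q b)) ^ 2).natDegree :=
      natDegree_prod_le _ _
    have h2 : ∑ b : Fin m, ((X - C (q b)) ^ 2 : ℝ[X]).natDegree = ∑ b : Fin m, 2 := by
      apply Finset.sum_congr rfl
      intro b _
      rw [natDegree_pow, natDegree_X_sub_C]
    rw [h2] at h1
    simp at h1
    omega
  calc ∑ k : Fin n → Fin (2 * m + 1), (∏ a, p a ^ (k a : ℕ)) *
      (∏ a, (∏ b, (X - C (q b)) ^ 2 : ℝ[X]).coeff (k a : ℕ))
      = ∑ k : Fin n → Fin (2 * m + 1), ∏ a, ((∏ b, (X - C (q b)) ^ 2 : ℝ[X]).coeff (k a : ℕ)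
          * p a ^ (k a : ℕ)) := by
        apply Finset.sum_congr rfl
        intro k _
        rw [← Finset.prod_mul_distrib]
        apply Finset.prod_congr rfl
        intro a _
        ring
    _ = ∏ a, ∑ j : Fin (2 * m + 1), ((∏ b, (X - C (q b)) ^ 2 : ℝ[X]).coeff (j : ℕ)
          * p a ^ (j : ℕ)) := by
        rw [Finset.prod_univ_sum]
        rw [Fintype.piFinset_univ]
    _ = ∏ a, ∏ b, (p a - q b) ^ 2 := by
        apply Finset.prod_congr rfl
        intro a _
        rw [← Finset.sum_range (fun j => (∏ b, (X - C (q b)) ^ 2 : ℝ[X]).coeff j * p a ^ j),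
          ← eval_eq_sum_range' hdeg, eval_prod]
        simp

/-- The finite level obstruction. -/
theorem finite_level {J : Type*} [Fintype J] (n m : ℕ)
    (hN : 2 * (2 * m + 1) ^ n < Fintype.card J) (η : ℝ) (hη : 0 < η) (hη1 : η ≤ 1 / 2)
    (C : J → (Fin n → J → Bool) → Set (J → ℝ)) (D : J → (Fin m → J → Bool) → Set (J → ℝ))
    (hC : ∀ i L, IsClosed (C i L)) (hD : ∀ i L, IsClosed (D i L))
    (covC : ∀ s : J → ℝ, (∀ i, s i ∈ Icc (0 : ℝ) 1) → ∀ i, s i ≤ η → ∃ L, s ∈ C i L)
    (covD : ∀ s : J → ℝ, (∀ i, s i ∈ Icc (0 : ℝ) 1) → ∀ i, 1 - η ≤ s i → ∃ L, s ∈ D i L)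
    (conf : ∀ s : J → ℝ, (∀ i, s i ∈ Icc (0 : ℝ) 1) → ∀ i j, i ≠ j → s i ≤ η → 1 - η ≤ s j →
      ∀ L L', s ∈ C i L → s ∈ D j L' → ∃ a b, L a = L' b ∧ L a i ≠ L a j) : False := by
  classical
  obtain ⟨c, hc⟩ : ∃ c : (J → Bool) × Bool → ℝ, Function.Injective c :=
    ⟨fun x => ((Fintype.equivFin _ x : ℕ) : ℝ), fun x y hxy => by
      have h1 : (Fintype.equivFin ((J → Bool) × Bool) x : ℕ) = Fintype.equivFin _ y :=
        Nat.cast_injective hxy
      exact (Fintype.equivFin _).injective (Fin.ext h1)⟩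
  set M := Fin n → Fin (2 * m + 1) with hM
  set P : J → (Fin n → J → Bool) → Fin n → ℝ := fun i L a => c (L a, !(L a i)) with hP
  set Q : J → (Fin m → J → Bool) → Fin m → ℝ := fun j L b => c (L b, L b j) with hQ
  set uv : J → (Fin n → J → Bool) → M → ℝ := fun i L k => ∏ a, P i L a ^ (k a : ℕ) with huv
  set vv : J → (Fin m → J → Bool) → M → ℝ := fun j L k =>
    ∏ a, (∏ b, (X - Polynomial.C (Q j L b)) ^ 2 : ℝ[X]).coeff (k a : ℕ) with hvv
  have hpair : ∀ i j L L', ∑ k, uv i L k * vv j L' k = ∏ a, ∏ b, (P i L a - Q j L' b) ^ 2 := by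
    intro i j L L'
    exact lin n m (P i L) (Q j L')
  have hnn : ∀ i j L L', 0 ≤ ∑ k, uv i L k * vv j L' k := by
    intro i j L L'
    rw [hpair]
    exact Finset.prod_nonneg fun a _ => Finset.prod_nonneg fun b _ => sq_nonneg _
  have hpos : ∀ i L L', 0 < ∑ k, uv i L k * vv i L' k := by
    intro i L L'
    rw [hpair]
    refine Finset.prod_pos fun a _ => Finset.prod_pos fun b _ => ?_
    have hne : P i L a - Q i L' b ≠ 0 := ?_
    · positivity
    intro h
    have h1 : c (L a, !(L a i)) = c (L' b, L' b i) := sub_eq_zero.1 h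
    have h2 := hc h1
    rw [Prod.mk.injEq] at h2
    rw [h2.1] at h2
    simp at h2
  have hzero : ∀ i j L L', (∃ a b, L a = L' b ∧ L a i ≠ L a j) →
      ∑ k, uv i L k * vv j L' k = 0 := by
    rintro i j L L' ⟨a, b, hab, hne⟩
    rw [hpair]
    refine Finset.prod_eq_zero (Finset.mem_univ a) (Finset.prod_eq_zero (Finset.mem_univ b) ?_)
    have : P i L a = Q j L' b := by
      simp only [hP, hQ]
      congr 1
      rw [← hab]
      rw [Prod.mk.injEq]
      refine ⟨rfl, ?_⟩
      revert hne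
      cases L a i <;> cases L a j <;> simp
    rw [this]
    simp
  -- the compact pieces
  set A : J → (Fin n → J → Bool) → Set (J → ℝ) :=
    fun i L => C i L ∩ {s | (∀ k, s k ∈ Icc (0 : ℝ) 1) ∧ s i ≤ η} with hA
  set B : J → (Fin m → J → Bool) → Set (J → ℝ) :=
    fun j L => D j L ∩ {s | (∀ k, s k ∈ Icc (0 : ℝ) 1) ∧ 1 - η ≤ s j} with hB
  have hcube : IsCompact {s : J → ℝ | ∀ k, s k ∈ Icc (0 : ℝ) 1} := by
    have h1 : {s : J → ℝ | ∀ k, s k ∈ Icc (0 : ℝ) 1} = Icc (0 : J → ℝ) 1 := by
      ext s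
      simp only [mem_ofPred_eq, mem_Icc, Pi.le_def, Pi.zero_apply, Pi.one_apply]
      exact forall_and
    rw [h1]
    exact isCompact_Icc
  have hAc : ∀ i L, IsCompact (A i L) := by
    intro i L
    have h2 : A i L = ({s : J → ℝ | ∀ k, s k ∈ Icc (0 : ℝ) 1} ∩ {s | s i ≤ η}) ∩ C i L := by
      rw [hA]
      ext s
      simp only [mem_inter_iff, mem_ofPred_eq]
      tauto
    rw [h2]
    exact (hcube.inter_right (isClosed_le (continuous_apply i) continuous_const)).inter_right
      (hC i L)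
  have hBc : ∀ i L, IsCompact (B i L) := by
    intro i L
    have h2 : B i L = ({s : J → ℝ | ∀ k, s k ∈ Icc (0 : ℝ) 1} ∩ {s | 1 - η ≤ s i}) ∩ D i L := by
      rw [hB]
      ext s
      simp only [mem_inter_iff, mem_ofPred_eq]
      tauto
    rw [h2]
    exact (hcube.inter_right (isClosed_le continuous_const (continuous_apply i))).inter_right
      (hD i L)
  obtain ⟨ε, hε, hsep⟩ : ∃ ε : ℝ, 0 < ε ∧ ∀ i j L L', i ≠ j →
      (¬ ∃ a b, L a = L' b ∧ L a i ≠ L a j) → ∀ x ∈ A i L, ∀ y ∈ B j L', ε ≤ dist x y := by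
    have hev : ∀ᶠ ε in 𝓝[>] (0 : ℝ), ∀ i j L L', i ≠ j →
        (¬ ∃ a b, L a = L' b ∧ L a i ≠ L a j) → ∀ x ∈ A i L, ∀ y ∈ B j L', ε ≤ dist x y := by
      rw [eventually_all]; intro i
      rw [eventually_all]; intro j
      rw [eventually_all]; intro L
      rw [eventually_all]; intro L'
      by_cases hij : i = j
      · exact Eventually.of_forall fun ε h => absurd hij h
      by_cases hcf : ∃ a b, L a = L' b ∧ L a i ≠ L a j
      · exact Eventually.of_forall fun ε _ h => absurd hcf h
      have hdis : Disjoint (A i L) (B j L') := by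
        rw [Set.disjoint_left]
        intro s hs1 hs2
        exact hcf (conf s hs1.2.1 i j hij hs1.2.2 hs2.2.2 L L' hs1.1 hs2.1)
      obtain ⟨r, hr, hrs⟩ := Metric.exists_pos_forall_lt_edist (hAc i L) (hBc j L').isClosed hdis
      have hr' : (0 : ℝ) < r := by exact_mod_cast hr
      filter_upwards [Ioo_mem_nhdsGT hr'] with ε hε _ _ x hx y hy
      have h1 := hrs x hx y hy
      have h2 : (r : ℝ) < dist x y := by
        rw [edist_dist] at h1
        have := (ENNReal.lt_ofReal_iff_toReal_lt ENNReal.coe_ne_top).1 h1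
        simpa using this
      exact (hε.2.trans h2).le
    obtain ⟨ε, h1, h2⟩ := (hev.and self_mem_nhdsWithin).exists
    exact ⟨ε, h2, h1⟩
  -- weights
  set wA : J → (Fin n → J → Bool) → (J → ℝ) → ℝ := fun i L s =>
    if (A i L).Nonempty then max 0 (ε - infDist s (A i L)) * max 0 (1 - s i / η) else 0 with hwA
  set wB : J → (Fin m → J → Bool) → (J → ℝ) → ℝ := fun i L s =>
    if (B i L).Nonempty then max 0 (ε - infDist s (B i L)) * max 0 (1 - (1 - s i) / η) else 0
    with hwB
  have hwAc : ∀ i L, Continuous (wA i L) := by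
    intro i L
    simp only [hwA]
    by_cases h : (A i L).Nonempty
    · simp only [h, if_true]
      have := continuous_infDist_pt (A i L)
      fun_prop
    · simp only [h, if_false]
      exact continuous_const
  have hwBc : ∀ i L, Continuous (wB i L) := by
    intro i L
    simp only [hwB]
    by_cases h : (B i L).Nonempty
    · simp only [h, if_true]
      have := continuous_infDist_pt (B i L)
      fun_prop
    · simp only [h, if_false]
      exact continuous_const
  have hwAn : ∀ i L s, 0 ≤ wA i L s := by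
    intro i L s
    simp only [hwA]
    split_ifs
    · exact mul_nonneg (le_max_left _ _) (le_max_left _ _)
    · exact le_rfl
  have hwBn : ∀ i L s, 0 ≤ wB i L s := by
    intro i L s
    simp only [hwB]
    split_ifs
    · exact mul_nonneg (le_max_left _ _) (le_max_left _ _)
    · exact le_rfl
  have hwAs : ∀ i L s, wA i L s ≠ 0 → s i < η ∧ ∃ y ∈ A i L, dist s y < ε := by
    intro i L s h
    simp only [hwA] at h
    split_ifs at h with hne
    · have h1 : max 0 (ε - infDist s (A i L)) ≠ 0 := left_ne_zero_of_mul h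
      have h2 : max 0 (1 - s i / η) ≠ 0 := right_ne_zero_of_mul h
      constructor
      · by_contra hlt
        rw [not_lt] at hlt
        apply h2
        apply max_eq_left
        have : 1 ≤ s i / η := (one_le_div hη).2 hlt
        linarith
      · rw [← infDist_lt_iff hne]
        by_contra hlt
        rw [not_lt] at hlt
        apply h1
        apply max_eq_left
        linarith
    · exact absurd rfl h
  have hwBs : ∀ i L s, wB i L s ≠ 0 → 1 - η < s i ∧ ∃ y ∈ B i L, dist s y < ε := by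
    intro i L s h
    simp only [hwB] at h
    split_ifs at h with hne
    · have h1 : max 0 (ε - infDist s (B i L)) ≠ 0 := left_ne_zero_of_mul h
      have h2 : max 0 (1 - (1 - s i) / η) ≠ 0 := right_ne_zero_of_mul h
      constructor
      · by_contra hlt
        rw [not_lt] at hlt
        apply h2
        apply max_eq_left
        have : 1 ≤ (1 - s i) / η := (one_le_div hη).2 (by linarith)
        linarith
      · rw [← infDist_lt_iff hne]
        by_contra hlt
        rw [not_lt] at hlt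
        apply h1
        apply max_eq_left
        linarith
    · exact absurd rfl h
  -- positivity of the weights on faces
  have hwAp : ∀ i L s, s ∈ A i L → s i = 0 → 0 < wA i L s := by
    intro i L s hs h0
    have hne : (A i L).Nonempty := ⟨s, hs⟩
    simp only [hwA, hne, if_true, infDist_zero_of_mem hs, h0, zero_div, sub_zero]
    rw [max_eq_right hε.le, max_eq_right zero_le_one]
    linarith
  have hwBp : ∀ i L s, s ∈ B i L → s i = 1 → 0 < wB i L s := by
    intro i L s hs h0
    have hne : (B i L).Nonempty := ⟨s, hs⟩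
    simp only [hwB, hne, if_true, infDist_zero_of_mem hs, h0, sub_self, zero_div, sub_zero]
    rw [max_eq_right hε.le, max_eq_right zero_le_one]
    linarith
  set U : (J → ℝ) → M → ℝ := fun s k => ∑ i, ∑ L, wA i L s * uv i L k with hU
  set V : (J → ℝ) → M → ℝ := fun s k => ∑ i, ∑ L, wB i L s * vv i L k with hV
  have hUc : Continuous U := by
    rw [hU]
    refine continuous_pi fun k => continuous_finsetSum _ fun i _ => continuous_finsetSum _
      fun L _ => (hwAc i L).mul continuous_const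
  have hVc : Continuous V := by
    rw [hV]
    refine continuous_pi fun k => continuous_finsetSum _ fun i _ => continuous_finsetSum _
      fun L _ => (hwBc i L).mul continuous_const
  have hUp : ∀ s i L', ∑ k, U s k * vv i L' k = ∑ j, ∑ L, wA j L s * ∑ k, uv j L k * vv i L' k := by
    intro s i L'
    simp only [hU, Finset.sum_mul, Finset.mul_sum]
    rw [Finset.sum_comm]
    apply Finset.sum_congr rfl
    intro j _
    rw [Finset.sum_comm]
    apply Finset.sum_congr rfl
    intro L _
    apply Finset.sum_congr rfl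
    intro k _
    ring
  have hVp : ∀ s i L, ∑ k, uv i L k * V s k = ∑ j, ∑ L', wB j L' s * ∑ k, uv i L k * vv j L' k := by
    intro s i L
    simp only [hV, Finset.mul_sum]
    rw [Finset.sum_comm]
    apply Finset.sum_congr rfl
    intro j _
    rw [Finset.sum_comm]
    apply Finset.sum_congr rfl
    intro L' _
    apply Finset.sum_congr rfl
    intro k _
    ring
  set Z : (M → ℝ) × (M → ℝ) → (J → ℝ) := fun x i =>
    (∏ L, ∑ k, uv i L k * x.2 k) - ∏ L', ∑ k, x.1 k * vv i L' k with hZ
  have hZd : ContDiff ℝ 1 Z := by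
    rw [hZ, contDiff_pi]
    intro i
    fun_prop
  set z : (J → ℝ) → (J → ℝ) := fun s => Z (U s, V s) with hz
  have hzc : Continuous z := hZd.continuous.comp (hUc.prodMk hVc)
  have hz0 : ∀ s : J → ℝ, (∀ i, s i ∈ Icc (0 : ℝ) 1) → ∀ i, s i = 0 → z s i < 0 := by
    intro s hs i hi
    obtain ⟨L₀, hL₀⟩ := covC s hs i (by rw [hi]; exact hη.le)
    have hsA : s ∈ A i L₀ := ⟨hL₀, hs, by rw [hi]; exact hη.le⟩
    have h1 : ∏ L, ∑ k, uv i L k * V s k = 0 := by
      refine Finset.prod_eq_zero (Finset.mem_univ L₀) ?_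
      rw [hVp]
      refine Finset.sum_eq_zero fun j _ => Finset.sum_eq_zero fun L' _ => ?_
      by_cases hw : wB j L' s = 0
      · rw [hw, zero_mul]
      · obtain ⟨hsj, y, hy, hdy⟩ := hwBs j L' s hw
        have hij : i ≠ j := by
          rintro rfl
          linarith
        have hcf : ∃ a b, L₀ a = L' b ∧ L₀ a i ≠ L₀ a j := by
          by_contra hcf
          exact absurd (hsep i j L₀ L' hij hcf s hsA y hy) (not_le.2 hdy)
        rw [hzero i j L₀ L' hcf, mul_zero]
    have h2 : 0 < ∏ L', ∑ k, U s k * vv i L' k := by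
      refine Finset.prod_pos fun L' _ => ?_
      rw [hUp]
      refine Finset.sum_pos' (fun j _ => Finset.sum_nonneg fun L _ =>
        mul_nonneg (hwAn _ _ _) (hnn _ _ _ _)) ⟨i, Finset.mem_univ _, ?_⟩
      exact Finset.sum_pos' (fun L _ => mul_nonneg (hwAn _ _ _) (hnn _ _ _ _))
        ⟨L₀, Finset.mem_univ _, mul_pos (hwAp i L₀ s hsA hi) (hpos i L₀ L')⟩
    simp only [hz, hZ]
    rw [h1]
    linarith
  have hz1 : ∀ s : J → ℝ, (∀ i, s i ∈ Icc (0 : ℝ) 1) → ∀ i, s i = 1 → 0 < z s i := by
    intro s hs i hi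
    obtain ⟨L₀, hL₀⟩ := covD s hs i (by rw [hi]; linarith)
    have hsB : s ∈ B i L₀ := ⟨hL₀, hs, by rw [hi]; linarith⟩
    have h1 : ∏ L', ∑ k, U s k * vv i L' k = 0 := by
      refine Finset.prod_eq_zero (Finset.mem_univ L₀) ?_
      rw [hUp]
      refine Finset.sum_eq_zero fun j _ => Finset.sum_eq_zero fun L _ => ?_
      by_cases hw : wA j L s = 0
      · rw [hw, zero_mul]
      · obtain ⟨hsj, y, hy, hdy⟩ := hwAs j L s hw
        have hij : j ≠ i := by
          rintro rfl
          linarith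
        have hcf : ∃ a b, L a = L₀ b ∧ L a j ≠ L a i := by
          by_contra hcf
          have := hsep j i L L₀ hij hcf y hy s hsB
          rw [dist_comm] at this
          exact absurd this (not_le.2 hdy)
        rw [hzero j i L L₀ hcf, mul_zero]
    have h2 : 0 < ∏ L, ∑ k, uv i L k * V s k := by
      refine Finset.prod_pos fun L _ => ?_
      rw [hVp]
      refine Finset.sum_pos' (fun j _ => Finset.sum_nonneg fun L' _ =>
        mul_nonneg (hwBn _ _ _) (hnn _ _ _ _)) ⟨i, Finset.mem_univ _, ?_⟩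
      exact Finset.sum_pos' (fun L' _ => mul_nonneg (hwBn _ _ _) (hnn _ _ _ _))
        ⟨L₀, Finset.mem_univ _, mul_pos (hwBp i L₀ s hsB hi) (hpos i L L₀)⟩
    simp only [hz, hZ]
    rw [h1]
    linarith
  -- uniform gap
  obtain ⟨κ, hκ, hgap⟩ : ∃ κ : ℝ, 0 < κ ∧ ∀ i, ∀ s : J → ℝ, (∀ i, s i ∈ Icc (0 : ℝ) 1) →
      (s i = 0 → z s i < -κ) ∧ (s i = 1 → κ < z s i) := by
    have hev : ∀ᶠ κ in 𝓝[>] (0 : ℝ), ∀ i, ∀ s : J → ℝ, (∀ i, s i ∈ Icc (0 : ℝ) 1) →
      (s i = 0 → z s i < -κ) ∧ (s i = 1 → κ < z s i) := by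
      rw [eventually_all]; intro i
      have hc0 : IsCompact ({s : J → ℝ | ∀ k, s k ∈ Icc (0 : ℝ) 1} ∩ {s | s i = 0}) :=
        hcube.inter_right (isClosed_eq (continuous_apply i) continuous_const)
      have hc1 : IsCompact ({s : J → ℝ | ∀ k, s k ∈ Icc (0 : ℝ) 1} ∩ {s | s i = 1}) :=
        hcube.inter_right (isClosed_eq (continuous_apply i) continuous_const)
      obtain ⟨s0, hs0, hmax0⟩ := hc0.exists_isMaxOn ⟨0, fun k => by simp, by simp⟩
        ((continuous_apply i).comp hzc).continuousOn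
      obtain ⟨s1, hs1, hmin1⟩ := hc1.exists_isMinOn ⟨1, fun k => by simp, by simp⟩
        ((continuous_apply i).comp hzc).continuousOn
      have h0 := hz0 s0 hs0.1 i hs0.2
      have h1 := hz1 s1 hs1.1 i hs1.2
      filter_upwards [Ioo_mem_nhdsGT (neg_pos.2 h0), Ioo_mem_nhdsGT h1] with κ hκ0 hκ1 s hs
      constructor
      · intro hsi
        have := hmax0 (show s ∈ _ from ⟨hs, hsi⟩)
        simp only [Function.comp, mem_ofPred_eq] at this
        have h3 := hκ0.2
        linarith
      · intro hsi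
        have := hmin1 (show s ∈ _ from ⟨hs, hsi⟩)
        simp only [Function.comp, mem_ofPred_eq] at this
        have h3 := hκ1.2
        linarith
    obtain ⟨ε, h1, h2⟩ := (hev.and self_mem_nhdsWithin).exists
    exact ⟨ε, h2, h1⟩
  have hdense : Dense (range Z)ᶜ := by
    apply hZd.dense_compl_range_of_finrank_lt_finrank
    rw [Module.finrank_prod, Module.finrank_fintype_fun_eq_card,
      Module.finrank_fintype_fun_eq_card]
    simp only [hM, Fintype.card_fun, Fintype.card_fin]
    omega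
  obtain ⟨e, he, hde⟩ := hdense.exists_dist_lt 0 hκ
  have hei : ∀ i, |e i| < κ := by
    intro i
    rw [dist_comm, dist_zero_right] at hde
    exact (norm_le_pi_norm e i).trans_lt hde
  obtain ⟨s, hs, hzs⟩ := miranda (fun s => z s - e) (hzc.sub continuous_const)
    (fun s hs i hi => by
      have h1 := (hgap i s hs).1 hi
      have h2 := (abs_lt.1 (hei i)).1
      simp only [Pi.sub_apply]
      linarith)
    (fun s hs i hi => by
      have h1 := (hgap i s hs).2 hi
      have h2 := (abs_lt.1 (hei i)).2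
      simp only [Pi.sub_apply]
      linarith)
  exact he ⟨(U s, V s), sub_eq_zero.1 hzs⟩

end Pool.Agent.TH597.TE
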