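import Mathlib
import Pool.Agent.TH597.TE.Compat
import Pool.Agent.TH597.TE.FLT
import Pool.Agent.TH597.TE.Dat

/-!
# The main obstruction
-/

namespace Pool.Agent.TH597.TE

open Set Filter Topology TopologicalSpace unitInterval

variable {X A : Type*} [TopologicalSpace X]

/-- Interpolation at finitely many points of a compact Hausdorff space. -/
lemma exists_interp [CompactSpace X] [T2Space X] (F : Set X) (hF : F.Finite) (h : X → ℝ) :
    ∃ g : C(X, ℝ), ∀ x ∈ F, g x = h x := by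
  have hFc : IsClosed F := hF.isClosed
  have hfin : Finite F := hF.to_subtype
  have hd : DiscreteTopology F := inferInstance
  obtain ⟨g, hg⟩ := ContinuousMap.exists_restrict_eq hFc
    (⟨fun x : F => h x, continuous_of_discreteTopology⟩ : C(F, ℝ))
  refine ⟨g, fun x hx => ?_⟩
  have := congrArg (fun k : C(F, ℝ) => k ⟨x, hx⟩) hg
  simpa using this

/-- The family of data with pairwise disjoint moving parts. -/
lemma exists_uncountable_family [CompactSpace X] (e : X → A → I) (he : Continuous e)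
    (hX : ¬ Countable C(X, Bool)) (φ : C(X, ℝ) → C(A → I, ℝ))
    (hφ : Continuous[pointwiseTop X, pointwiseTop (A → I)] φ)
    (hext : ∀ f x, φ f (e x) = f x) :
    ∃ F : Set (Dat φ), ¬ F.Countable ∧ ∀ d ∈ F, ∀ d' ∈ F, d ≠ d' → Disjoint d.H d'.H := by
  classical
  obtain ⟨F, hF⟩ := zorn_subset {S : Set (Dat φ) | S.PairwiseDisjoint Dat.H} (by
    intro c hc hchain
    refine ⟨⋃₀ c, ?_, fun s hs => subset_sUnion_of_mem hs⟩
    intro i hi j hj hij
    obtain ⟨s, hs, his⟩ := hi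
    obtain ⟨t, ht, hjt⟩ := hj
    rcases hchain.total hs ht with h | h
    · exact hc ht (h his) hjt hij
    · exact hc hs his (h hjt) hij)
  have hFp : F.PairwiseDisjoint Dat.H := hF.prop
  refine ⟨F, fun hc => ?_, fun d hd d' hd' h => hFp hd hd' h⟩
  obtain ⟨d, hd⟩ := exists_dat e he hX φ hφ hext (⋃ d ∈ F, (d.H : Set A))
    (hc.biUnion fun d _ => d.H.countable_toSet)
  have h1 : insert d F ∈ {S : Set (Dat φ) | S.PairwiseDisjoint Dat.H} := by
    refine hFp.insert fun d' hd' hne => ?_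
    rw [Finset.disjoint_left]
    intro l hl hl'
    exact hd l hl (mem_biUnion hd' hl')
  have h2 : d ∈ F := hF.le_of_ge h1 (subset_insert d F) (mem_insert d F)
  obtain ⟨l, hl⟩ := d.nonempty
  exact hd l hl (mem_biUnion h2 hl)

/-- Main obstruction: a compact Hausdorff space with uncountably many clopen sets admits no
continuous extender into a cube. -/
theorem no_extender [CompactSpace X] [T2Space X] (e : X → A → I) (he : Continuous e)
    (hX : ¬ Countable C(X, Bool)) : ¬ HasContinuousExtender e := by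
  classical
  rintro ⟨φ, hφ, hext⟩
  obtain ⟨F, hFu, hFd⟩ := exists_uncountable_family e he hX φ hφ hext
  -- same sizes
  obtain ⟨n, m, hnm⟩ : ∃ n m : ℕ, ¬ {d | d ∈ F ∧ d.n = n ∧ d.m = m}.Countable := by
    by_contra hno
    push Not at hno
    apply hFu
    refine (countable_iUnion fun n => countable_iUnion fun m => hno n m).mono fun d hd => ?_
    simp only [mem_iUnion]
    exact ⟨d.n, d.m, hd, rfl, rfl⟩
  -- compatible subfamily
  obtain ⟨F', hF'F, hF'u, hcomp⟩ := compat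
    (fun (d : Dat φ) (l : A) => if l ∈ d.H then (none : Option ℕ) else some (d.r l))
    (fun d => d.H ∪ d.R) _ hnm
  have hF'F' : ∀ d ∈ F', d ∈ F := fun d hd => (hF'F hd).1
  have hHR : ∀ d ∈ F', ∀ d' ∈ F', ∀ l ∈ d.H, l ∉ d'.R := by
    intro d hd d' hd' l hl hl'
    by_cases hdd : d = d'
    · subst hdd
      exact d.hHR l hl hl'
    · have h1 := hcomp d hd d' hd' hdd l (Finset.mem_union_left _ hl)
        (Finset.mem_union_right _ hl')
      have h2 : l ∉ d'.H := fun h => d'.hHR l h hl'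
      simp [hl, h2] at h1
  have hRR : ∀ d ∈ F', ∀ d' ∈ F', ∀ l ∈ d.R, l ∈ d'.R → d.r l = d'.r l := by
    intro d hd d' hd' l hl hl'
    by_cases hdd : d = d'
    · rw [hdd]
    · have h1 := hcomp d hd d' hd' hdd l (Finset.mem_union_right _ hl)
        (Finset.mem_union_right _ hl')
      have h2 : l ∉ d.H := fun h => d.hHR l h hl
      have h3 : l ∉ d'.H := fun h => d'.hHR l h hl'
      simpa [h2, h3] using h1
  -- finite subfamily
  obtain ⟨J, hJF, hJc⟩ := (show F'.Infinite from fun h => hF'u h.countable).exists_subset_card_eq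
    (2 * (2 * m + 1) ^ n + 1)
  have hJn : ∀ i : J, (i : Dat φ).n = n := fun i => (hF'F (hJF i.2)).2.1
  have hJm : ∀ i : J, (i : Dat φ).m = m := fun i => (hF'F (hJF i.2)).2.2
  -- tolerance
  obtain ⟨η, hη, hη1, hηJ⟩ : ∃ η : ℝ, 0 < η ∧ η ≤ 1 / 2 ∧ ∀ i : J, η ≤ (i : Dat φ).η := by
    have hev : ∀ᶠ η in 𝓝[>] (0 : ℝ), ∀ i : J, η ≤ (i : Dat φ).η := by
      rw [eventually_all]
      intro i
      filter_upwards [Ioo_mem_nhdsGT (i : Dat φ).hη] with ε hε
      exact hε.2.le
    have hhalf : ∀ᶠ η in 𝓝[>] (0 : ℝ), η ≤ 1 / 2 := by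
      filter_upwards [Ioo_mem_nhdsGT (show (0 : ℝ) < 1 / 2 by norm_num)] with ε hε
      exact hε.2.le
    obtain ⟨η, h1, h2, h3⟩ := (hev.and (hhalf.and self_mem_nhdsWithin)).exists
    exact ⟨η, h3, h2, h1⟩
  -- the cube
  set y : (J → ℝ) → A → I := fun s l =>
    if h : ∃ i : J, l ∈ (i : Dat φ).H then
      projIcc 0 1 zero_le_one
        (((h.choose : Dat φ).a l : ℝ) + s h.choose * (((h.choose : Dat φ).b l : ℝ) -
          ((h.choose : Dat φ).a l : ℝ)))
    else if h : ∃ i : J, l ∈ (i : Dat φ).R then denseSeq I ((h.choose : Dat φ).r l) else 0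
    with hy
  have hyc : Continuous y := by
    refine continuous_pi fun l => ?_
    simp only [hy]
    by_cases h : ∃ i : J, l ∈ (i : Dat φ).H
    · simp only [h, dite_true]
      refine continuous_projIcc.comp ?_
      fun_prop
    · simp only [h, dite_false]
      exact continuous_const
  have hyR : ∀ s, ∀ i : J, ∀ l ∈ (i : Dat φ).R, y s l = denseSeq I ((i : Dat φ).r l) := by
    intro s i l hl
    have h1 : ¬ ∃ i : J, l ∈ (i : Dat φ).H := by
      rintro ⟨j, hj⟩
      exact hHR j (hJF j.2) i (hJF i.2) l hj hl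
    have h2 : ∃ i : J, l ∈ (i : Dat φ).R := ⟨i, hl⟩
    simp only [hy, h1, dite_false, h2, dite_true]
    congr 1
    exact hRR _ (hJF h2.choose.2) _ (hJF i.2) l h2.choose_spec hl
  have hyH : ∀ s, (∀ i, s i ∈ Icc (0 : ℝ) 1) → ∀ i : J, ∀ l ∈ (i : Dat φ).H, (y s l : ℝ) =
      ((i : Dat φ).a l : ℝ) + s i * (((i : Dat φ).b l : ℝ) - ((i : Dat φ).a l : ℝ)) := by
    intro s hs i l hl
    have h1 : ∃ i : J, l ∈ (i : Dat φ).H := ⟨i, hl⟩
    have h2 : h1.choose = i := by
      by_contra hne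
      have hne' : (h1.choose : Dat φ) ≠ i := fun h => hne (Subtype.ext h)
      have h3 := hFd _ (hF'F' _ (hJF h1.choose.2)) _ (hF'F' _ (hJF i.2)) hne'
      exact Finset.disjoint_left.1 h3 h1.choose_spec hl
    simp only [hy, h1, dite_true]
    rw [h2, projIcc_of_mem]
    have ha := ((i : Dat φ).a l).2
    have hb := ((i : Dat φ).b l).2
    have h4 := hs i
    constructor
    · nlinarith [ha.1, hb.1, h4.1, h4.2, mul_nonneg h4.1 hb.1,
        mul_nonneg (sub_nonneg.2 h4.2) ha.1]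
    · nlinarith [ha.2, hb.2, h4.1, h4.2, mul_nonneg h4.1 (sub_nonneg.2 hb.2),
        mul_nonneg (sub_nonneg.2 h4.2) (sub_nonneg.2 ha.2)]
  -- properties on the slabs
  have hlow : ∀ s : J → ℝ, (∀ i, s i ∈ Icc (0 : ℝ) 1) → ∀ i : J, s i ≤ η →
      φ (fc (i : Dat φ).c) (y s) < 1 / 4 ∧ ∃ S : Fin (i : Dat φ).n → X,
        Cert φ (fc (i : Dat φ).c) (1 / (((i : Dat φ).k : ℝ) + 1)) S (y s) := by
    intro s hs i hi
    refine (i : Dat φ).h0 (y s) (hyR s i) fun l hl => ?_
    rw [hyH s hs i l hl, add_sub_cancel_left, abs_mul, abs_of_nonneg (hs i).1]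
    have ha := ((i : Dat φ).a l).2
    have hb := ((i : Dat φ).b l).2
    have h5 : |((i : Dat φ).b l : ℝ) - ((i : Dat φ).a l : ℝ)| ≤ 1 := by
      rw [abs_le]
      constructor <;> linarith [ha.1, ha.2, hb.1, hb.2]
    calc s i * |((i : Dat φ).b l : ℝ) - ((i : Dat φ).a l : ℝ)| ≤ s i * 1 :=
          mul_le_mul_of_nonneg_left h5 (hs i).1
      _ ≤ (i : Dat φ).η := by rw [mul_one]; exact hi.trans (hηJ i)
  have hhigh : ∀ s : J → ℝ, (∀ i, s i ∈ Icc (0 : ℝ) 1) → ∀ i : J, 1 - η ≤ s i →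
      3 / 4 < φ (fc (i : Dat φ).c) (y s) ∧ ∃ S : Fin (i : Dat φ).m → X,
        Cert φ (fc (i : Dat φ).c) (1 / (((i : Dat φ).k' : ℝ) + 1)) S (y s) := by
    intro s hs i hi
    refine (i : Dat φ).h1 (y s) (hyR s i) fun l hl => ?_
    have h6 : (y s l : ℝ) - ((i : Dat φ).b l : ℝ) =
        -((1 - s i) * (((i : Dat φ).b l : ℝ) - ((i : Dat φ).a l : ℝ))) := by
      rw [hyH s hs i l hl]; ring
    rw [h6, abs_neg, abs_mul, abs_of_nonneg (sub_nonneg.2 (hs i).2)]
    have ha := ((i : Dat φ).a l).2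
    have hb := ((i : Dat φ).b l).2
    have h5 : |((i : Dat φ).b l : ℝ) - ((i : Dat φ).a l : ℝ)| ≤ 1 := by
      rw [abs_le]
      constructor <;> linarith [ha.1, ha.2, hb.1, hb.2]
    calc (1 - s i) * |((i : Dat φ).b l : ℝ) - ((i : Dat φ).a l : ℝ)| ≤ (1 - s i) * 1 :=
          mul_le_mul_of_nonneg_left h5 (sub_nonneg.2 (hs i).2)
      _ ≤ (i : Dat φ).η := by rw [mul_one]; linarith [hηJ i]
  -- labels
  have hclosed : ∀ (i : J) (ε : ℝ) (p : ℕ) (L : Fin p → J → Bool),
      IsClosed {s : J → ℝ | ∃ S : Fin p → X, Cert φ (fc (i : Dat φ).c) ε S (y s) ∧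
        ∀ a (j : J), (j : Dat φ).c (S a) = L a j} := by
    intro i ε p L
    have h1 : {s : J → ℝ | ∃ S : Fin p → X, Cert φ (fc (i : Dat φ).c) ε S (y s) ∧
        ∀ a (j : J), (j : Dat φ).c (S a) = L a j} = Prod.fst ''
        ({q : (J → ℝ) × (Fin p → X) | Cert φ (fc (i : Dat φ).c) ε q.2 (y q.1)} ∩
          {q | ∀ a (j : J), (j : Dat φ).c (q.2 a) = L a j}) := by
      ext s
      constructor
      · rintro ⟨S, hS, hL⟩
        exact ⟨(s, S), ⟨hS, hL⟩, rfl⟩
      · rintro ⟨q, ⟨h1, h2⟩, rfl⟩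
        exact ⟨q.2, h1, h2⟩
    rw [h1]
    refine isClosedMap_fst_of_compactSpace _ (IsClosed.inter ?_ ?_)
    · have h2 := (isClosed_cert φ (fc (i : Dat φ).c) ε p).preimage
        (show Continuous (fun q : (J → ℝ) × (Fin p → X) => (y q.1, q.2)) from
          (hyc.comp continuous_fst).prodMk continuous_snd)
      exact h2
    · have h2 : {q : (J → ℝ) × (Fin p → X) | ∀ a (j : J), (j : Dat φ).c (q.2 a) = L a j} =
          ⋂ a, ⋂ j : J, {q | (j : Dat φ).c (q.2 a) = L a j} := by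
        ext q
        simp
      rw [h2]
      refine isClosed_iInter fun a => isClosed_iInter fun j => isClosed_eq ?_ continuous_const
      fun_prop
  -- conflict
  have hconf : ∀ s : J → ℝ, (∀ i, s i ∈ Icc (0 : ℝ) 1) → ∀ i j : J, s i ≤ η → 1 - η ≤ s j →
      ∀ (p q : ℕ) (S : Fin p → X) (S' : Fin q → X),
      Cert φ (fc (i : Dat φ).c) (1 / (((i : Dat φ).k : ℝ) + 1)) S (y s) →
      Cert φ (fc (j : Dat φ).c) (1 / (((j : Dat φ).k' : ℝ) + 1)) S' (y s) →
      ∃ a b, S a = S' b ∧ (i : Dat φ).c (S a) ≠ (j : Dat φ).c (S a) := by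
    intro s hs i j hi hj p q S S' hS hS'
    by_contra hno
    push Not at hno
    obtain ⟨g, hg⟩ := exists_interp (range S ∪ range S')
      ((finite_range S).union (finite_range S'))
      (fun x => if x ∈ range S then fc (i : Dat φ).c x else fc (j : Dat φ).c x)
    have hgS : ∀ a, g (S a) = fc (i : Dat φ).c (S a) := by
      intro a
      rw [hg (S a) (Or.inl ⟨a, rfl⟩), if_pos ⟨a, rfl⟩]
    have hgS' : ∀ b, g (S' b) = fc (j : Dat φ).c (S' b) := by
      intro b
      rw [hg (S' b) (Or.inr ⟨b, rfl⟩)]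
      split_ifs with h
      · obtain ⟨a, ha⟩ := h
        have h1 := hno a b ha
        rw [fc_apply, fc_apply, ← ha, h1]
      · rfl
    have h1 := hS g fun a => by rw [hgS, sub_self, abs_zero]; positivity
    have h2 := hS' g fun b => by rw [hgS', sub_self, abs_zero]; positivity
    have h3 := (hlow s hs i hi).1
    have h4 := (hhigh s hs j hj).1
    rw [abs_le] at h1 h2
    linarith [h1.1, h1.2, h2.1, h2.2]
  -- apply the finite level theorem
  refine finite_level (J := J) n m (by rw [Fintype.card_coe, hJc]; exact Nat.lt_succ_self _)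
    η hη hη1
    (fun i L => {s : J → ℝ | ∃ S : Fin n → X,
      Cert φ (fc (i : Dat φ).c) (1 / (((i : Dat φ).k : ℝ) + 1)) S (y s) ∧
        ∀ a (j : J), (j : Dat φ).c (S a) = L a j})
    (fun i L => {s : J → ℝ | ∃ S : Fin m → X,
      Cert φ (fc (i : Dat φ).c) (1 / (((i : Dat φ).k' : ℝ) + 1)) S (y s) ∧
        ∀ a (j : J), (j : Dat φ).c (S a) = L a j})
    (fun i L => hclosed i _ n L) (fun i L => hclosed i _ m L) ?_ ?_ ?_
  · intro s hs i hi
    obtain ⟨-, S, hS⟩ := hlow s hs i hi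
    have hn := hJn i
    subst hn
    exact ⟨fun a j => (j : Dat φ).c (S a), S, hS, fun a j => rfl⟩
  · intro s hs i hi
    obtain ⟨-, S, hS⟩ := hhigh s hs i hi
    have hm := hJm i
    subst hm
    exact ⟨fun a j => (j : Dat φ).c (S a), S, hS, fun a j => rfl⟩
  · intro s hs i j hij hi hj L L' hL hL'
    obtain ⟨S, hS, hSL⟩ := hL
    obtain ⟨S', hS', hSL'⟩ := hL'
    obtain ⟨a, b, hab, hne⟩ := hconf s hs i j hi hj n m S S' hS hS'
    refine ⟨a, b, ?_, ?_⟩
    · funext k
      rw [← hSL a k, ← hSL' b k, hab]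
    · rw [← hSL a i, ← hSL a j]
      exact hne

end Pool.Agent.TH597.TE
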