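import Mathlib
import Pool.Agent.TH597.TE.Main

/-!
# Cantor cubes
-/

namespace Pool.Agent.TH597.TE

open Set Filter Topology unitInterval

/-- The coordinatewise inclusion `{0,1}^T ⊂ [0,1]^T`. -/
def cubeInclusion (T : Type*) : (T → Bool) → (T → unitInterval) :=
  fun x i => if x i = true then 1 else 0

lemma continuous_cubeInclusion (T : Type*) : Continuous (cubeInclusion T) := by
  refine continuous_pi fun i => ?_
  exact (continuous_of_discreteTopology (f := fun b : Bool => if b = true then (1 : I) else 0)).comp
    (continuous_apply i)

lemma injective_cubeInclusion (T : Type*) : Function.Injective (cubeInclusion T) := by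
  intro x y h
  funext i
  have h1 := congrFun h i
  simp only [cubeInclusion] at h1
  cases hx : x i <;> cases hy : y i <;> simp [hx, hy] at h1 ⊢

lemma not_countable_clopen (T : Type*) [Uncountable T] : ¬ Countable C(T → Bool, Bool) := by
  classical
  intro h
  have hinj : Function.Injective (fun i : T => (⟨fun x => x i, continuous_apply i⟩ :
      C(T → Bool, Bool))) := by
    intro i j hij
    by_contra hne
    have h1 := congrArg (fun f : C(T → Bool, Bool) => f (fun k => decide (k = i))) hij
    simp only [ContinuousMap.coe_mk, decide_true] at h1
    have h2 : decide (j = i) = false := by simpa using fun h => hne h.symm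
    rw [h2] at h1
    exact Bool.false_ne_true h1.symm
  exact (not_countable_iff.2 inferInstance : ¬ Countable T) hinj.countable

/-- Cantor cubes of uncountable weight admit no continuous extender into any cube. -/
theorem cantor_no_extender (T : Type*) [Uncountable T] (A : Type*)
    (e : (T → Bool) → (A → unitInterval)) (he : Continuous e) : ¬ HasContinuousExtender e :=
  no_extender e he (not_countable_clopen T)

end Pool.Agent.TH597.TE
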