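import Mathlib
import Pool.Agent.TH597.TE.Cantor

/-!
# t-extral spaces
-/

namespace Pool.Agent.TH597.TE

open Set Filter Topology unitInterval

universe u

/-- A space `X` is t-extral if for every Tychonoff space `Y` and every closed embedding
`e : X → Y` the subspace `e(X)` is t-embedded in `Y`. -/
def TExtral (X : Type u) [TopologicalSpace X] : Prop :=
  ∀ (Y : Type u) [TopologicalSpace Y] [T35Space Y] (e : X → Y), IsClosedEmbedding e →
    HasContinuousExtender e

lemma HasContinuousExtender.comp {X Y Z : Type*} [TopologicalSpace X] [TopologicalSpace Y]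
    [TopologicalSpace Z] {e : X → Y} {e' : Y → Z} (h' : HasContinuousExtender e')
    (h : HasContinuousExtender e) : HasContinuousExtender (e' ∘ e) := by
  obtain ⟨φ, hφ, h1⟩ := h
  obtain ⟨ψ, hψ, h2⟩ := h'
  refine ⟨ψ ∘ φ, ?_, fun f x => ?_⟩
  · let := pointwiseTop X
    let := pointwiseTop Y
    let := pointwiseTop Z
    exact hψ.comp hφ
  · simp only [Function.comp]
    rw [h2, h1]

/-- The canonical map of a space to a cube. -/
def toCube (Z : Type u) [TopologicalSpace Z] : Z → (C(Z, unitInterval) → unitInterval) :=
  fun z f => f z

lemma continuous_toCube (Z : Type u) [TopologicalSpace Z] : Continuous (toCube Z) :=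
  continuous_pi fun f => f.continuous

lemma injective_toCube (Z : Type u) [TopologicalSpace Z] [T35Space Z] :
    Function.Injective (toCube Z) := by
  intro x y h
  by_contra hne
  obtain ⟨f, hf, hxy⟩ := separatesPoints_continuous_of_t35Space_Icc hne
  exact hxy (congrFun h ⟨f, hf⟩)

lemma isClosedEmbedding_toCube (Z : Type u) [TopologicalSpace Z] [CompactSpace Z] [T2Space Z] :
    IsClosedEmbedding (toCube Z) :=
  (continuous_toCube Z).isClosedEmbedding (injective_toCube Z)

lemma TExtral.cube {Z : Type u} [TopologicalSpace Z] [CompactSpace Z] [T2Space Z]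
    (h : TExtral Z) : HasContinuousExtender (toCube Z) :=
  h (C(Z, unitInterval) → unitInterval) (toCube Z) (isClosedEmbedding_toCube Z)

/-- Compact t-extral spaces have only countably many clopen sets. -/
theorem TExtral.countable_clopen {Z : Type u} [TopologicalSpace Z] [CompactSpace Z] [T2Space Z]
    (h : TExtral Z) : Countable C(Z, Bool) := by
  by_contra hc
  exact no_extender (toCube Z) (continuous_toCube Z) hc h.cube

/-- Cantor cubes of uncountable weight are not t-extral. -/
theorem cantor_not_textral (T : Type u) [Uncountable T] : ¬ TExtral (T → Bool) :=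
  fun h => not_countable_clopen T h.countable_clopen

/-- No compact t-extral space contains a t-embedded copy of an uncountable Cantor cube. -/
theorem no_embedded_cantor (Z : Type u) [TopologicalSpace Z] [CompactSpace Z] [T2Space Z]
    (h : TExtral Z) (T : Type*) [Uncountable T] (e : (T → Bool) → Z) (he : Continuous e) :
    ¬ HasContinuousExtender e := fun hc =>
  cantor_no_extender T _ (toCube Z ∘ e) ((continuous_toCube Z).comp he) (h.cube.comp hc)

end Pool.Agent.TH597.TE
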